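import Pool.Agent.H22.BinFormSeries

/-!
# The two reduction arguments
-/

namespace Pool.Agent.H22.BinForm

open Polynomial

section Core

variable {κ : Type*} [Field κ] (p : ℕ) [hp : Fact p.Prime] [CharP κ p]

omit hp [CharP κ p] in
theorem coe_prod {ι : Type*} (t : Finset ι) (f : ι → κ[X]) :
    ((∏ j ∈ t, f j : κ[X]) : PowerSeries κ) = ∏ j ∈ t, (f j : PowerSeries κ) :=
  map_prod (Polynomial.coeToPowerSeries.ringHom (R := κ)) f t

omit hp [CharP κ p] in
theorem coe_sum {ι : Type*} (t : Finset ι) (f : ι → κ[X]) :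
    ((∑ j ∈ t, f j : κ[X]) : PowerSeries κ) = ∑ j ∈ t, (f j : PowerSeries κ) :=
  map_sum (Polynomial.coeToPowerSeries.ringHom (R := κ)) f t

include hp in
theorem X_pow_dvd_one_sub (g : κ[X]) (h0 : g.coeff 0 = 1) (N : ℕ) (hN : p ∣ N) :
    X ^ p ∣ 1 - g ^ N := by
  obtain ⟨m, rfl⟩ := hN
  have h1 : X ∣ 1 - g := by
    rw [X_dvd_iff]; simp [h0]
  have h2 : X ^ p ∣ 1 - g ^ p := by
    have h3 : (1 - g) ^ p = 1 - g ^ p := by
      rw [sub_pow_char]; simp
    rw [← h3]
    exact pow_dvd_pow_of_dvd h1 p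
  rw [pow_mul]
  refine h2.trans ?_
  have := sub_dvd_pow_sub_pow (1 : κ[X]) (g ^ p) m
  simpa using this

theorem eq_one_of_natDegree_eq_zero {g : κ[X]} (h0 : g.coeff 0 = 1) (h : g.natDegree = 0) :
    g = 1 := by
  rw [eq_C_of_natDegree_eq_zero h, h0, C_1]

theorem eq_zero_of_X_pow_dvd {F : κ[X]} {N : ℕ} (h : X ^ N ∣ F) (hdeg : F.natDegree < N) :
    F = 0 := by
  by_contra hF
  have := natDegree_le_of_dvd h hF
  rw [natDegree_X_pow] at this
  omega

theorem natDegree_prod_erase_le {k : ℕ} (g : Fin k → κ[X]) (D : ℕ)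
    (hdeg : ∀ i, (g i).natDegree ≤ D) (i : Fin k) :
    (∏ j ∈ Finset.univ.erase i, g j).natDegree ≤ (k - 1) * D := by
  refine (natDegree_prod_le _ _).trans ?_
  refine (Finset.sum_le_card_nsmul _ _ D (fun j _ => hdeg j)).trans ?_
  rw [Finset.card_erase_of_mem (Finset.mem_univ i)]
  simp

include hp in
theorem caseA (k e d s : ℕ) (hs : 1 ≤ s) (hdvd : p ∣ d + s) (hlt : k * e * s < p)
    (g : Fin k → κ[X]) (hdeg : ∀ i, (g i).natDegree ≤ e) (h0 : ∀ i, (g i).coeff 0 = 1)
    (hsum : ∑ i, g i ^ d = (k : κ[X])) : ∀ i, g i = 1 := by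
  rcases Nat.eq_zero_or_pos e with rfl | he
  · intro i
    exact eq_one_of_natDegree_eq_zero (h0 i) (Nat.le_zero.mp (hdeg i))
  have hne : ∀ i, g i ≠ 0 := by
    intro i h
    have := h0 i
    rw [h] at this
    simp at this
  set Pi : κ[X] := ∏ j, g j ^ s with hPi
  set E : Fin k → κ[X] := fun i => ∏ j ∈ Finset.univ.erase i, g j ^ s with hE
  have hPE : ∀ i, g i ^ s * E i = Pi := by
    intro i
    rw [hE, hPi]
    exact Finset.mul_prod_erase Finset.univ (fun j => g j ^ s) (Finset.mem_univ i)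
  have hPine : Pi ≠ 0 := Finset.prod_ne_zero_iff.mpr (fun i _ => pow_ne_zero _ (hne i))
  have hEne : ∀ i, E i ≠ 0 := fun i => Finset.prod_ne_zero_iff.mpr
    (fun j _ => pow_ne_zero _ (hne j))
  -- the polynomial F
  have hF : ∑ i, (E i - Pi) = ∑ i, (1 - g i ^ (d + s)) * E i := by
    have h1 : ∑ i, g i ^ (d + s) * E i = ∑ _i : Fin k, Pi := by
      calc ∑ i, g i ^ (d + s) * E i = ∑ i, g i ^ d * Pi := by
            refine Finset.sum_congr rfl (fun i _ => ?_)
            rw [pow_add, mul_assoc, hPE]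
        _ = (∑ i, g i ^ d) * Pi := by rw [Finset.sum_mul]
        _ = ∑ _i : Fin k, Pi := by rw [hsum]; simp
    rw [Finset.sum_sub_distrib, ← h1, ← Finset.sum_sub_distrib]
    refine Finset.sum_congr rfl (fun i _ => ?_)
    ring
  have hsdeg : ∀ j, (g j ^ s).natDegree ≤ e * s := by
    intro j
    refine natDegree_pow_le.trans ?_
    rw [mul_comm]
    exact Nat.mul_le_mul_right s (hdeg j)
  have hPideg : Pi.natDegree ≤ k * e * s := by
    rw [hPi]
    refine (natDegree_prod_le _ _).trans ?_
    refine (Finset.sum_le_card_nsmul _ _ (e * s) (fun j _ => hsdeg j)).trans ?_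
    simp [mul_assoc]
  have hEdeg : ∀ i, (E i).natDegree ≤ k * e * s := by
    intro i
    refine le_trans ?_ hPideg
    rw [← hPE i, natDegree_mul (pow_ne_zero _ (hne i)) (hEne i)]
    omega
  have hF0 : ∑ i, (E i - Pi) = 0 := by
    apply eq_zero_of_X_pow_dvd (N := p)
    · rw [hF]
      exact Finset.dvd_sum (fun i _ => (X_pow_dvd_one_sub p (g i) (h0 i) _ hdvd).mul_right _)
    · refine lt_of_le_of_lt ?_ hlt
      apply natDegree_sum_le_of_forall_le
      intro i _
      exact (natDegree_sub_le _ _).trans (max_le (hEdeg i) hPideg)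
  -- top coefficient
  have hcoef : ∀ i, (E i - Pi).coeff Pi.natDegree =
      if (g i).natDegree = 0 then 0 else - Pi.leadingCoeff := by
    intro i
    split_ifs with h
    · have h1 : g i = 1 := eq_one_of_natDegree_eq_zero (h0 i) h
      have h2 : E i = Pi := by rw [← hPE i, h1]; simp
      rw [h2]; simp
    · rw [coeff_sub]
      have h2 : (E i).coeff Pi.natDegree = 0 := by
        apply coeff_eq_zero_of_natDegree_lt
        rw [← hPE i, natDegree_mul (pow_ne_zero _ (hne i)) (hEne i), natDegree_pow]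
        have : 0 < s * (g i).natDegree := Nat.mul_pos hs (Nat.pos_of_ne_zero h)
        omega
      rw [h2]; simp
  have hsum0 : ∑ i : Fin k, (if (g i).natDegree = 0 then (0 : κ) else - Pi.leadingCoeff) = 0 := by
    rw [← Finset.sum_congr rfl (fun i _ => hcoef i), ← finsetSum_coeff, hF0, coeff_zero]
  set J := (Finset.univ.filter (fun i : Fin k => ¬ (g i).natDegree = 0)).card with hJ
  have hJ0 : (J : κ) = 0 := by
    rw [Finset.sum_ite, Finset.sum_const_zero, zero_add, Finset.sum_const, nsmul_eq_mul] at hsum0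
    rcases mul_eq_zero.mp hsum0 with h | h
    · exact h
    · exact absurd (neg_eq_zero.mp h) (leadingCoeff_ne_zero.mpr hPine)
  have hJk : J ≤ k := by
    rw [hJ]
    exact (Finset.card_le_univ _).trans (by simp)
  have hJz : J = 0 := by
    rw [CharP.cast_eq_zero_iff κ p] at hJ0
    by_contra hne0
    have h1 := Nat.le_of_dvd (Nat.pos_of_ne_zero hne0) hJ0
    have h2 : k ≤ k * e * s := by
      calc k = k * 1 * 1 := by ring
        _ ≤ k * e * s := by gcongr; omega
    omega
  intro i
  apply eq_one_of_natDegree_eq_zero (h0 i)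
  by_contra hi
  have : i ∈ Finset.univ.filter (fun i : Fin k => ¬ (g i).natDegree = 0) := by simp [hi]
  rw [Finset.card_eq_zero.mp hJz] at this
  simp at this

/-- Vanishing of a certain power series combination forces triviality. -/
theorem trivial_of_sum_Qn (k e s : ℕ) (hs : (e + 1) * s < p) (hk : k * (e + 1) < p)
    (g : Fin k → κ[X]) (hdeg : ∀ i, (g i).natDegree ≤ e + 1) (h0 : ∀ i, (g i).coeff 0 = 1)
    (hF : ∑ i, Qn (g i) (s : κ) ((e + 1) * s + 1) *
      ∏ j ∈ Finset.univ.erase i, g j ^ (e * s + 1) = 0) : ∀ i, g i = 1 := by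
  have hne : ∀ i, g i ≠ 0 := by
    intro i h
    have := h0 i
    rw [h] at this
    simp at this
  set n := (e + 1) * s + 1 with hn
  have hcc : ∀ i, PowerSeries.constantCoeff (g i : PowerSeries κ) ≠ 0 := by
    intro i
    rw [← PowerSeries.coeff_zero_eq_constantCoeff_apply, Polynomial.coeff_coe, h0 i]
    exact one_ne_zero
  have hGne : ∀ i, (g i : PowerSeries κ) ≠ 0 := by
    intro i h
    apply hcc i
    rw [h]; simp
  set v : Fin k → PowerSeries κ := fun i =>
    ((derivative (g i) : κ[X]) : PowerSeries κ) * (g i : PowerSeries κ)⁻¹ with hvdef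
  have hv : ∀ i, (g i : PowerSeries κ) * v i = ((derivative (g i) : κ[X]) : PowerSeries κ) := by
    intro i
    rw [hvdef]
    simp only
    rw [mul_comm, mul_assoc, PowerSeries.inv_mul_cancel _ (hcc i), mul_one]
  set L : Fin k → PowerSeries κ := fun i => Ln (v i) (g i ^ s) n with hLdef
  have hL : ∀ i, (g i : PowerSeries κ) ^ (e * s + 1) * L i =
      ((Qn (g i) (s : κ) n : κ[X]) : PowerSeries κ) := by
    intro i
    have h1 := pow_mul_Ln (g i) (v i) (hv i) s n
    have h2 : (g i : PowerSeries κ) ^ n =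
        (g i : PowerSeries κ) ^ s * (g i : PowerSeries κ) ^ (e * s + 1) := by
      rw [← pow_add]; congr 1; rw [hn]; ring
    rw [h2, mul_assoc] at h1
    exact mul_left_cancel₀ (pow_ne_zero s (hGne i)) h1
  have hLsum : ∑ i, L i = 0 := by
    have h1 : (∏ j, (g j : PowerSeries κ) ^ (e * s + 1)) * ∑ i, L i = 0 := by
      rw [Finset.mul_sum]
      have h2 : ∀ i ∈ (Finset.univ : Finset (Fin k)),
          (∏ j, (g j : PowerSeries κ) ^ (e * s + 1)) * L i =
          ((Qn (g i) (s : κ) n * ∏ j ∈ Finset.univ.erase i, g j ^ (e * s + 1) : κ[X]) :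
            PowerSeries κ) := by
        intro i _
        rw [← Finset.mul_prod_erase Finset.univ
          (fun j => (g j : PowerSeries κ) ^ (e * s + 1)) (Finset.mem_univ i)]
        rw [Polynomial.coe_mul, ← hL i]
        have h3 : ((∏ j ∈ Finset.univ.erase i, g j ^ (e * s + 1) : κ[X]) : PowerSeries κ) =
            ∏ j ∈ Finset.univ.erase i, (g j : PowerSeries κ) ^ (e * s + 1) := by
          rw [coe_prod]
          simp only [Polynomial.coe_pow]
        rw [h3]
        ring
      rw [Finset.sum_congr rfl h2]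
      rw [← coe_sum, hF, Polynomial.coe_zero]
    rcases mul_eq_zero.mp h1 with h | h
    · exfalso
      exact (Finset.prod_ne_zero_iff.mpr (fun j _ => pow_ne_zero _ (hGne j))) h
    · exact h
  set u : κ := (-1) ^ ((e + 1) * s) * (((e + 1) * s).factorial : κ) with hu
  have hune : u ≠ 0 := by
    rw [hu]
    apply mul_ne_zero (pow_ne_zero _ (neg_ne_zero.mpr one_ne_zero))
    intro h
    rw [CharP.cast_eq_zero_iff κ p, hp.out.dvd_factorial] at h
    omega
  have hc : ∀ j : ℕ, 1 ≤ j → PowerSeries.coeff (p * j - 1) (∑ i, v i) = 0 := by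
    intro j hj
    have hM : ((p * j : ℕ) : κ) = 0 := by
      rw [CharP.cast_eq_zero_iff κ p]; exact dvd_mul_right p j
    have hM1 : 1 ≤ p * j := Nat.mul_pos hp.out.pos hj
    have h1 : ∀ i, PowerSeries.coeff (p * j - 1)
        ((PowerSeries.X : PowerSeries κ) ^ ((e + 1) * s) * L i) =
        u * PowerSeries.coeff (p * j - 1) (v i) := by
      intro i
      rw [hLdef]
      simp only
      rw [hn, coeff_X_pow_Ln (p * j) hM hM1 (v i) (g i ^ s) ((e + 1) * s),
        Tn_eq_C p (g i ^ s) (by rw [coeff_zero_eq_eval_zero, eval_pow,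
          ← coeff_zero_eq_eval_zero, h0 i, one_pow]) ((e + 1) * s) ?_ hs]
      · rw [← hu, Polynomial.coe_C, mul_comm (v i), PowerSeries.coeff_C_mul]
      · refine natDegree_pow_le.trans ?_
        rw [mul_comm]
        exact Nat.mul_le_mul_right s (hdeg i)
    have h2 : u * PowerSeries.coeff (p * j - 1) (∑ i, v i) = 0 := by
      rw [map_sum, Finset.mul_sum, ← Finset.sum_congr rfl (fun i _ => h1 i), ← map_sum,
        ← Finset.mul_sum, hLsum, mul_zero, map_zero]
    rcases mul_eq_zero.mp h2 with h | h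
    · exact absurd h hune
    · exact h
  set P : κ[X] := ∏ i, g i with hP
  have hPne : P ≠ 0 := Finset.prod_ne_zero_iff.mpr (fun i _ => hne i)
  have hPdeg : P.natDegree ≤ k * (e + 1) := by
    rw [hP]
    refine (natDegree_prod_le _ _).trans ?_
    refine (Finset.sum_le_card_nsmul _ _ (e + 1) (fun j _ => hdeg j)).trans ?_
    simp
  have hP0 : P.coeff 0 = 1 := by
    rw [hP, coeff_zero_eq_eval_zero, eval_prod]
    apply Finset.prod_eq_one
    intro i _
    rw [← coeff_zero_eq_eval_zero, h0 i]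
  have hPv : (P : PowerSeries κ) * ∑ i, v i = ((derivative P : κ[X]) : PowerSeries κ) := by
    rw [hP, derivative_prod_finset, Finset.mul_sum, coe_sum]
    refine Finset.sum_congr rfl (fun i _ => ?_)
    rw [Polynomial.coe_mul (φ := ∏ b ∈ Finset.univ.erase i, g b), ← hv i,
      ← Finset.mul_prod_erase Finset.univ g (Finset.mem_univ i), Polynomial.coe_mul]
    ring
  have hdeg0 := natDegree_eq_zero_of_logDeriv p P hP0 (by omega) (∑ i, v i) hPv hc
  intro i
  apply eq_one_of_natDegree_eq_zero (h0 i)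
  rw [hP, natDegree_prod _ _ (fun i _ => hne i)] at hdeg0
  exact Finset.sum_eq_zero_iff.mp hdeg0 i (Finset.mem_univ i)

end Core

section CoreB

variable {A κ : Type*} [CommRing A] [IsDomain A] [CharZero A] [Field κ] (π : A →+* κ)
  (p : ℕ) [hp : Fact p.Prime] [CharP κ p]

theorem caseB (k e d s : ℕ) (hsd : s < d) (hdvd : p ∣ d - s) (hs : (e + 1) * s < p)
    (hlt : k * (e + 1) * (e * s + 1) < p)
    (g : Fin k → A[X]) (hdeg : ∀ i, (g i).natDegree ≤ e + 1) (h0 : ∀ i, (g i).coeff 0 = 1)
    (hsum : ∑ i, g i ^ d = (k : A[X])) : ∀ i, (g i).map π = 1 := by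
  have hne : ∀ i, g i ≠ 0 := by
    intro i h
    have := h0 i
    rw [h] at this
    simp at this
  set n := (e + 1) * s + 1 with hn
  have hnd : n ≤ d := by
    have := Nat.le_of_dvd (by omega) hdvd
    omega
  set δ : A := ((d - s : ℕ) : A) with hδ
  have hδne : δ ≠ 0 := by
    rw [hδ]
    exact_mod_cast (by omega : d - s ≠ 0)
  have hsδ : (s : A) + δ = (d : A) := by
    rw [hδ, ← Nat.cast_add]; congr 1; omega
  have hP0 : ∀ i, Pn (g i) (s : A) n = 0 := by
    intro i
    have h1 := pow_mul_iterate (g i) s n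
    have h2 : derivative^[n] (g i ^ s) = 0 := by
      apply iterate_derivative_eq_zero
      have : (g i ^ s).natDegree ≤ (e + 1) * s := by
        refine natDegree_pow_le.trans ?_
        rw [mul_comm]
        exact Nat.mul_le_mul_right s (hdeg i)
      omega
    rw [h2, mul_zero] at h1
    rcases mul_eq_zero.mp h1.symm with h | h
    · exact absurd h (pow_ne_zero _ (hne i))
    · exact h
  choose R hR using fun i => Pn_add (g i) (s : A) δ n
  have hD : ∀ i, derivative^[n] (g i ^ d) =
      g i ^ (d - n) * (C δ * Qn (g i) (s : A) n + C (δ ^ 2) * R i) := by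
    intro i
    have h1 := pow_mul_iterate (g i) d n
    have h2 : g i ^ d = g i ^ n * g i ^ (d - n) := by
      rw [← pow_add]; congr 1; omega
    have h3 := hR i
    rw [hsδ, hP0 i, zero_add] at h3
    have h4 : g i ^ n * derivative^[n] (g i ^ d) =
        g i ^ n * (g i ^ (d - n) * (C δ * Qn (g i) (s : A) n + C (δ ^ 2) * R i)) := by
      rw [h1, h3, h2]; ring
    exact mul_left_cancel₀ (pow_ne_zero n (hne i)) h4
  have hzero : ∑ i, g i ^ (d - n) * (Qn (g i) (s : A) n + C δ * R i) = 0 := by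
    have h1 : C δ * ∑ i, g i ^ (d - n) * (Qn (g i) (s : A) n + C δ * R i) = 0 := by
      have h2 : derivative^[n] (∑ i, g i ^ d) = 0 := by
        rw [hsum, hn, Function.iterate_succ_apply, derivative_natCast, iterate_derivative_zero]
      rw [iterate_derivative_sum, Finset.sum_congr rfl (fun i _ => hD i)] at h2
      rw [Finset.mul_sum, ← h2]
      refine Finset.sum_congr rfl (fun i _ => ?_)
      rw [map_pow]
      ring
    rcases mul_eq_zero.mp h1 with h | h
    · exact absurd (C_eq_zero.mp h) hδne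
    · exact h
  have hπδ : π δ = 0 := by
    rw [hδ, map_natCast, CharP.cast_eq_zero_iff κ p]
    exact hdvd
  have hzero' : ∑ i, (g i).map π ^ (d - n) * Qn ((g i).map π) (s : κ) n = 0 := by
    have h1 := congrArg (Polynomial.map π) hzero
    rw [Polynomial.map_sum, Polynomial.map_zero] at h1
    rw [← h1]
    refine Finset.sum_congr rfl (fun i _ => ?_)
    rw [Polynomial.map_mul, Polynomial.map_pow, Polynomial.map_add, Polynomial.map_mul, map_C, hπδ,
      map_Qn, map_natCast]
    simp
  set G : Fin k → κ[X] := fun i => (g i).map π with hG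
  have hGdeg : ∀ i, (G i).natDegree ≤ e + 1 := fun i => natDegree_map_le.trans (hdeg i)
  have hG0 : ∀ i, (G i).coeff 0 = 1 := by
    intro i
    rw [hG]
    simp only
    rw [coeff_map, h0 i, map_one]
  have hkk : k * (e + 1) ≤ k * (e + 1) * (e * s + 1) := Nat.le_mul_of_pos_right _ (by omega)
  apply trivial_of_sum_Qn p k e s hs (by omega) G hGdeg hG0
  -- F = 0
  set E : Fin k → κ[X] := fun i => ∏ j ∈ Finset.univ.erase i, G j ^ (e * s + 1) with hE
  have hPE : ∀ i, G i ^ (e * s + 1) * E i = ∏ j, G j ^ (e * s + 1) := by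
    intro i
    rw [hE]
    exact Finset.mul_prod_erase Finset.univ (fun j => G j ^ (e * s + 1)) (Finset.mem_univ i)
  have hFeq : ∑ i, Qn (G i) (s : κ) n * E i =
      ∑ i, (1 - G i ^ (d - s)) * (Qn (G i) (s : κ) n * E i) := by
    have h1 : ∑ i, G i ^ (d - s) * (Qn (G i) (s : κ) n * E i) = 0 := by
      have h2 : (∏ j, G j ^ (e * s + 1)) * ∑ i, G i ^ (d - n) * Qn (G i) (s : κ) n = 0 := by
        rw [hzero', mul_zero]
      rw [Finset.mul_sum] at h2
      rw [← h2]
      refine Finset.sum_congr rfl (fun i _ => ?_)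
      rw [← hPE i]
      have h3 : d - s = (d - n) + (e * s + 1) := by
        have : (e + 1) * s = e * s + s := by ring
        omega
      rw [h3, pow_add]
      ring
    have h4 : ∀ i, (1 - G i ^ (d - s)) * (Qn (G i) (s : κ) n * E i) =
        Qn (G i) (s : κ) n * E i - G i ^ (d - s) * (Qn (G i) (s : κ) n * E i) := by
      intro i; ring
    rw [Finset.sum_congr rfl (fun i _ => h4 i), Finset.sum_sub_distrib, h1, sub_zero]
  rcases Nat.eq_zero_or_pos k with rfl | hkpos
  · simp
  apply eq_zero_of_X_pow_dvd (N := p)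
  · rw [hFeq]
    exact Finset.dvd_sum (fun i _ => (X_pow_dvd_one_sub p (G i) (hG0 i) _ hdvd).mul_right _)
  · have hbound : ∀ i, (Qn (G i) (s : κ) n * E i).natDegree ≤
        n * e + (k - 1) * ((e + 1) * (e * s + 1)) := by
      intro i
      refine natDegree_mul_le.trans (Nat.add_le_add (natDegree_Qn_le _ _ _ (hGdeg i) _) ?_)
      apply natDegree_prod_erase_le (fun j => G j ^ (e * s + 1))
      intro j
      refine natDegree_pow_le.trans ?_
      rw [mul_comm]
      exact Nat.mul_le_mul_right _ (hGdeg j)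
    have hnum : n * e + (k - 1) * ((e + 1) * (e * s + 1)) < p := by
      obtain ⟨k', rfl⟩ : ∃ k', k = k' + 1 := ⟨k - 1, by omega⟩
      have h1 : n * e + 1 = (e + 1) * (e * s + 1) := by rw [hn]; ring
      have h2 : (k' + 1) * (e + 1) * (e * s + 1) =
          (e + 1) * (e * s + 1) + k' * ((e + 1) * (e * s + 1)) := by ring
      simp only [Nat.add_sub_cancel]
      omega
    refine lt_of_le_of_lt ?_ hnum
    apply natDegree_sum_le_of_forall_le
    intro i _
    exact hbound i

end CoreB

end Pool.Agent.H22.BinForm
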