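import Mathlib

/-!
# Differential operators acting on powers of a polynomial

For a polynomial `g` the polynomials `Pn g x n` satisfy
`g ^ n * D ^ n (g ^ s) = g ^ s * Pn g s n`, and `Qn g x n` is the derivative of `Pn g x n`
with respect to the exponent `x`.
-/

namespace Pool.Agent.H22.BinForm

open Polynomial

section Rec

variable {A : Type*} [CommRing A]

/-- `g ^ (-x + n) * D ^ n (g ^ x)`, a polynomial in the exponent `x`. -/
noncomputable def Pn (g : A[X]) (x : A) : ℕ → A[X]
  | 0 => 1
  | (n + 1) => C (x - n) * derivative g * Pn g x n + g * derivative (Pn g x n)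

/-- The derivative of `Pn g x n` with respect to `x`. -/
noncomputable def Qn (g : A[X]) (x : A) : ℕ → A[X]
  | 0 => 0
  | (n + 1) => derivative g * Pn g x n + C (x - n) * derivative g * Qn g x n
      + g * derivative (Qn g x n)

theorem Pn_succ (g : A[X]) (x : A) (n : ℕ) :
    Pn g x (n + 1) = C (x - n) * derivative g * Pn g x n + g * derivative (Pn g x n) := rfl

theorem Qn_succ (g : A[X]) (x : A) (n : ℕ) :
    Qn g x (n + 1) = derivative g * Pn g x n + C (x - n) * derivative g * Qn g x n
      + g * derivative (Qn g x n) := rfl

theorem mul_derivative_pow (g : A[X]) (s : ℕ) :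
    g * derivative (g ^ s) = (s : A[X]) * g ^ s * derivative g := by
  rw [derivative_pow]
  cases s with
  | zero => simp
  | succ s =>
    simp only [Nat.cast_succ, Nat.add_sub_cancel, map_add, map_natCast, map_one]
    ring

theorem pow_mul_iterate (g : A[X]) (s n : ℕ) :
    g ^ n * derivative^[n] (g ^ s) = g ^ s * Pn g (s : A) n := by
  induction n with
  | zero => simp [Pn]
  | succ n ih =>
    have h := congrArg (fun w => g * derivative w) ih
    simp only [derivative_mul] at h
    rw [Function.iterate_succ_apply', Pn_succ]
    have h1 := mul_derivative_pow g n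
    have h2 := mul_derivative_pow g s
    have h3 : g ^ (n + 1) * derivative (derivative^[n] (g ^ s)) =
        g * (derivative (g ^ n) * derivative^[n] (g ^ s)
          + g ^ n * derivative (derivative^[n] (g ^ s)))
        - (g * derivative (g ^ n)) * derivative^[n] (g ^ s) := by ring
    rw [h3, h, h1]
    have h4 : (n : A[X]) * g ^ n * derivative g * derivative^[n] (g ^ s) =
        (n : A[X]) * derivative g * (g ^ n * derivative^[n] (g ^ s)) := by ring
    rw [h4, ih]
    have h5 : g * (derivative (g ^ s) * Pn g (s : A) n + g ^ s * derivative (Pn g (s : A) n)) =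
        (g * derivative (g ^ s)) * Pn g (s : A) n + g ^ s * (g * derivative (Pn g (s : A) n)) := by
      ring
    rw [h5, h2]
    simp only [map_sub, map_natCast]
    ring

theorem Pn_add (g : A[X]) (x δ : A) (n : ℕ) :
    ∃ R : A[X], Pn g (x + δ) n = Pn g x n + C δ * Qn g x n + C (δ ^ 2) * R := by
  induction n with
  | zero => exact ⟨0, by simp [Pn, Qn]⟩
  | succ n ih =>
    obtain ⟨R, hR⟩ := ih
    refine ⟨derivative g * Qn g x n + C (x + δ - n) * derivative g * R + g * derivative R, ?_⟩
    rw [Pn_succ, hR, Pn_succ, Qn_succ]
    have hC : derivative (C (δ ^ 2) : A[X]) = 0 := derivative_C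
    simp only [map_add, derivative_mul, derivative_C, hC]
    simp only [map_sub, map_add, map_pow, map_natCast]
    ring

theorem natDegree_Pn_le (g : A[X]) (x : A) (e : ℕ) (hg : g.natDegree ≤ e + 1) (n : ℕ) :
    (Pn g x n).natDegree ≤ n * e := by
  induction n with
  | zero => simp [Pn]
  | succ n ih =>
    rw [Pn_succ]
    have hd : (derivative g).natDegree ≤ e :=
      (natDegree_derivative_le g).trans (by omega)
    refine (natDegree_add_le _ _).trans (max_le ?_ ?_)
    · refine natDegree_mul_le.trans ?_
      have : (C (x - (n : A)) * derivative g).natDegree ≤ e :=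
        (natDegree_C_mul_le _ _).trans hd
      calc _ ≤ e + n * e := Nat.add_le_add this ih
        _ = (n + 1) * e := by ring
    · by_cases h0 : derivative (Pn g x n) = 0
      · rw [h0]; simp
      · refine natDegree_mul_le.trans ?_
        have h1 : (Pn g x n).natDegree ≠ 0 := by
          intro h
          apply h0
          rw [eq_C_of_natDegree_eq_zero h, derivative_C]
        have h2 := natDegree_derivative_le (Pn g x n)
        have : (n + 1) * e = n * e + e := by ring
        omega

theorem natDegree_Qn_le (g : A[X]) (x : A) (e : ℕ) (hg : g.natDegree ≤ e + 1) (n : ℕ) :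
    (Qn g x n).natDegree ≤ n * e := by
  induction n with
  | zero => simp [Qn]
  | succ n ih =>
    rw [Qn_succ]
    have hd : (derivative g).natDegree ≤ e :=
      (natDegree_derivative_le g).trans (by omega)
    have hP := natDegree_Pn_le g x e hg n
    refine (natDegree_add_le _ _).trans (max_le ((natDegree_add_le _ _).trans (max_le ?_ ?_)) ?_)
    · refine natDegree_mul_le.trans ?_
      calc _ ≤ e + n * e := Nat.add_le_add hd hP
        _ = (n + 1) * e := by ring
    · refine natDegree_mul_le.trans ?_
      have : (C (x - (n : A)) * derivative g).natDegree ≤ e :=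
        (natDegree_C_mul_le _ _).trans hd
      calc _ ≤ e + n * e := Nat.add_le_add this ih
        _ = (n + 1) * e := by ring
    · by_cases h0 : derivative (Qn g x n) = 0
      · rw [h0]; simp
      · refine natDegree_mul_le.trans ?_
        have h1 : (Qn g x n).natDegree ≠ 0 := by
          intro h
          apply h0
          rw [eq_C_of_natDegree_eq_zero h, derivative_C]
        have h2 := natDegree_derivative_le (Qn g x n)
        have : (n + 1) * e = n * e + e := by ring
        omega

theorem map_Pn {B : Type*} [CommRing B] (π : A →+* B) (g : A[X]) (x : A) (n : ℕ) :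
    (Pn g x n).map π = Pn (g.map π) (π x) n := by
  induction n with
  | zero => simp [Pn]
  | succ n ih =>
    rw [Pn_succ, Pn_succ, ← ih]
    simp only [Polynomial.map_add, Polynomial.map_mul, map_C, derivative_map, map_sub,
      Polynomial.map_sub, Polynomial.map_natCast, map_natCast]

theorem map_Qn {B : Type*} [CommRing B] (π : A →+* B) (g : A[X]) (x : A) (n : ℕ) :
    (Qn g x n).map π = Qn (g.map π) (π x) n := by
  induction n with
  | zero => simp [Qn]
  | succ n ih =>
    rw [Qn_succ, Qn_succ, ← ih, ← map_Pn]
    simp only [Polynomial.map_add, Polynomial.map_mul, map_C, derivative_map, map_sub,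
      Polynomial.map_sub, Polynomial.map_natCast, map_natCast]

end Rec

section Tn

variable {κ : Type*} [CommRing κ]

/-- `T (n+1) = ∑ b ≤ n, (-1)^(n-b) n!/b! X^b D^b h`. -/
noncomputable def Tn (h : κ[X]) : ℕ → κ[X]
  | 0 => 0
  | (n + 1) => X ^ n * derivative^[n] h - (n : κ[X]) * Tn h n

theorem Tn_succ (h : κ[X]) (n : ℕ) :
    Tn h (n + 1) = X ^ n * derivative^[n] h - (n : κ[X]) * Tn h n := rfl

theorem derivative_Tn (h : κ[X]) (n : ℕ) :
    derivative (Tn h (n + 1)) = X ^ n * derivative^[n + 1] h := by
  induction n with
  | zero => simp [Tn]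
  | succ n ih =>
    rw [Tn_succ, derivative_sub, derivative_mul, derivative_X_pow, derivative_mul,
      derivative_natCast, ih, Function.iterate_succ_apply' (f := derivative) (n := n + 1)]
    simp only [Nat.add_sub_cancel, map_natCast]
    ring

theorem coeff_zero_Tn (h : κ[X]) (h0 : h.coeff 0 = 1) (n : ℕ) :
    (Tn h (n + 1)).coeff 0 = (-1) ^ n * (n.factorial : κ) := by
  induction n with
  | zero => simp [Tn, h0]
  | succ n ih =>
    rw [Tn_succ, coeff_sub, mul_coeff_zero, mul_coeff_zero, ih, coeff_X_pow]
    simp only [Nat.factorial_succ, Nat.cast_mul, coeff_natCast_ite]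
    simp
    ring

theorem natDegree_Tn_le (h : κ[X]) (H : ℕ) (hH : h.natDegree ≤ H) (n : ℕ) :
    (Tn h n).natDegree ≤ H := by
  induction n with
  | zero => simp [Tn]
  | succ n ih =>
    rw [Tn_succ]
    refine (natDegree_sub_le _ _).trans (max_le ?_ ?_)
    · by_cases hn : h.natDegree < n
      · rw [iterate_derivative_eq_zero hn]; simp
      · push Not at hn
        refine natDegree_mul_le.trans ?_
        have h1 := natDegree_iterate_derivative h n
        have h2 : (X ^ n : κ[X]).natDegree ≤ n := natDegree_X_pow_le n
        omega
    · refine natDegree_mul_le.trans ?_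
      simpa using ih

end Tn

end Pool.Agent.H22.BinForm
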