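import Pool.Agent.H22.BinFormOps

/-!
# Power series computations in characteristic `p`
-/

namespace Pool.Agent.H22.BinForm

open Polynomial

section Ser

variable {κ : Type*} [Field κ]

/-- The power series `D ^ n (h * log g)` with `v` the logarithmic derivative of `g`, up to
the term `log g * D ^ n h`. -/
noncomputable def Ln (v : PowerSeries κ) (h : κ[X]) : ℕ → PowerSeries κ
  | 0 => 0
  | (n + 1) => PowerSeries.derivative κ (Ln v h n) + v * ((derivative^[n] h : κ[X]) : PowerSeries κ)

theorem Ln_succ (v : PowerSeries κ) (h : κ[X]) (n : ℕ) :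
    Ln v h (n + 1) =
      PowerSeries.derivative κ (Ln v h n) + v * ((derivative^[n] h : κ[X]) : PowerSeries κ) := rfl

theorem coe_nat (n : ℕ) : (((n : κ[X])) : PowerSeries κ) = (n : PowerSeries κ) :=
  map_natCast (Polynomial.coeToPowerSeries.ringHom (R := κ)) n

theorem mul_D_pow (G : PowerSeries κ) (n : ℕ) :
    G * PowerSeries.derivative κ (G ^ n) =
      (n : PowerSeries κ) * G ^ n * PowerSeries.derivative κ G := by
  rw [PowerSeries.derivative_pow]
  cases n with
  | zero => simp
  | succ n =>
    simp only [Nat.cast_succ, Nat.add_sub_cancel]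
    ring

theorem pow_mul_Ln (g : κ[X]) (v : PowerSeries κ)
    (hv : (g : PowerSeries κ) * v = ((derivative g : κ[X]) : PowerSeries κ)) (s n : ℕ) :
    (g : PowerSeries κ) ^ n * Ln v (g ^ s) n =
      (g : PowerSeries κ) ^ s * ((Qn g (s : κ) n : κ[X]) : PowerSeries κ) := by
  induction n with
  | zero => simp [Ln, Qn]
  | succ n ih =>
    have h := congrArg (fun w => (g : PowerSeries κ) * PowerSeries.derivative κ w) ih
    simp only [Derivation.leibniz, smul_eq_mul] at h
    have h1 := mul_D_pow (g : PowerSeries κ) n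
    have h2 := mul_D_pow (g : PowerSeries κ) s
    have hP : (g : PowerSeries κ) ^ n * ((derivative^[n] (g ^ s) : κ[X]) : PowerSeries κ) =
        (g : PowerSeries κ) ^ s * ((Pn g (s : κ) n : κ[X]) : PowerSeries κ) := by
      have := congrArg (fun w : κ[X] => (w : PowerSeries κ)) (pow_mul_iterate g s n)
      simpa only [Polynomial.coe_mul, Polynomial.coe_pow] using this
    rw [Ln_succ, Qn_succ]
    simp only [PowerSeries.derivative_coe] at h h1 h2
    simp only [Polynomial.coe_add, Polynomial.coe_mul, map_sub, map_natCast,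
      Polynomial.coe_sub, coe_nat]
    linear_combination h - (Ln v (g ^ s) n) * h1
      + ((Qn g (s : κ) n : κ[X]) : PowerSeries κ) * h2
      + ((g : PowerSeries κ) ^ n * ((derivative^[n] (g ^ s) : κ[X]) : PowerSeries κ)) * hv
      + ((derivative g : κ[X]) : PowerSeries κ) * hP
      - (n : PowerSeries κ) * ((derivative g : κ[X]) : PowerSeries κ) * ih

theorem coeff_D (M : ℕ) (hM : (M : κ) = 0) (hM1 : 1 ≤ M) (w : PowerSeries κ) :
    PowerSeries.coeff (M - 1) (PowerSeries.derivative κ w) = 0 := by
  rw [PowerSeries.coeff_derivative]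
  have : ((M - 1 : ℕ) : κ) + 1 = (M : κ) := by
    rw [← Nat.cast_succ]; congr 1; omega
  rw [this, hM, mul_zero]

theorem coeff_X_pow_Ln (M : ℕ) (hM : (M : κ) = 0) (hM1 : 1 ≤ M) (v : PowerSeries κ) (h : κ[X])
    (n : ℕ) :
    PowerSeries.coeff (M - 1) ((PowerSeries.X : PowerSeries κ) ^ n * Ln v h (n + 1)) =
      PowerSeries.coeff (M - 1) (v * ((Tn h (n + 1) : κ[X]) : PowerSeries κ)) := by
  induction n with
  | zero =>
    simp [Ln, Tn]
  | succ n ih =>
    have h1 : (PowerSeries.X : PowerSeries κ) ^ (n + 1) * Ln v h (n + 2) =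
        PowerSeries.derivative κ ((PowerSeries.X : PowerSeries κ) ^ (n + 1) * Ln v h (n + 1))
        - ((n + 1 : ℕ) : PowerSeries κ) * ((PowerSeries.X : PowerSeries κ) ^ n * Ln v h (n + 1))
        + v * ((PowerSeries.X : PowerSeries κ) ^ (n + 1) *
            ((derivative^[n + 1] h : κ[X]) : PowerSeries κ)) := by
      rw [Ln_succ v h (n + 1), Derivation.leibniz, PowerSeries.derivative_pow]
      simp only [smul_eq_mul, Nat.add_sub_cancel, PowerSeries.derivative_X]
      ring
    have h2 : v * ((Tn h (n + 2) : κ[X]) : PowerSeries κ) =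
        v * ((PowerSeries.X : PowerSeries κ) ^ (n + 1) *
            ((derivative^[n + 1] h : κ[X]) : PowerSeries κ))
        - ((n + 1 : ℕ) : PowerSeries κ) * (v * ((Tn h (n + 1) : κ[X]) : PowerSeries κ)) := by
      rw [Tn_succ h (n + 1)]
      simp only [Polynomial.coe_sub, Polynomial.coe_mul, Polynomial.coe_pow, Polynomial.coe_X,
        coe_nat]
      ring
    rw [h1, h2, map_add, map_sub, map_sub, coeff_D M hM hM1]
    have e1 : ∀ w : PowerSeries κ, PowerSeries.coeff (M - 1) (((n + 1 : ℕ) : PowerSeries κ) * w) =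
        ((n + 1 : ℕ) : κ) * PowerSeries.coeff (M - 1) w := by
      intro w
      rw [← map_natCast (PowerSeries.C (R := κ)), PowerSeries.coeff_C_mul]
    rw [e1, e1, ih]
    ring

theorem Tn_eq_C (p : ℕ) [CharP κ p] (h : κ[X]) (h0 : h.coeff 0 = 1) (H : ℕ)
    (hH : h.natDegree ≤ H) (hHp : H < p) :
    Tn h (H + 1) = C ((-1) ^ H * (H.factorial : κ)) := by
  have hd : derivative (Tn h (H + 1)) = 0 := by
    rw [derivative_Tn, iterate_derivative_eq_zero (by omega), mul_zero]
  have hdeg := natDegree_Tn_le h H hH (H + 1)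
  ext m
  cases m with
  | zero => rw [coeff_zero_Tn h h0, coeff_C_zero]
  | succ m =>
    rw [coeff_C_succ]
    by_cases hm : H < m + 1
    · exact coeff_eq_zero_of_natDegree_lt (by omega)
    · have h1 := coeff_derivative (Tn h (H + 1)) m
      rw [hd, coeff_zero] at h1
      rcases mul_eq_zero.mp h1.symm with h2 | h2
      · exact h2
      · exfalso
        have h3 : ((m + 1 : ℕ) : κ) = 0 := by push_cast; exact h2
        rw [CharP.cast_eq_zero_iff κ p] at h3
        have := Nat.le_of_dvd (by omega) h3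
        omega

/-- A polynomial of degree `< p` whose logarithmic derivative has no coefficient of index
`≡ -1 mod p` is constant. -/
theorem natDegree_eq_zero_of_logDeriv (p : ℕ) [hp : Fact p.Prime] [CharP κ p] (P : κ[X])
    (hP0 : P.coeff 0 = 1) (hdeg : P.natDegree < p) (v : PowerSeries κ)
    (hv : (P : PowerSeries κ) * v = ((derivative P : κ[X]) : PowerSeries κ))
    (hc : ∀ j : ℕ, 1 ≤ j → PowerSeries.coeff (p * j - 1) v = 0) : P.natDegree = 0 := by
  by_contra hne
  set r := P.natDegree with hr
  have hr1 : 1 ≤ r := Nat.one_le_iff_ne_zero.mpr hne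
  have hp2 := hp.out.two_le
  have hPne : P ≠ 0 := by
    intro h
    rw [h] at hP0
    simp at hP0
  -- left side
  have hL : (P ^ (p - 1) * derivative P).coeff (p * r - 1) = P.leadingCoeff ^ p * (r : κ) := by
    have h1 : p * r - 1 = r * (p - 1) + (r - 1) := by
      obtain ⟨q, rfl⟩ : ∃ q, p = q + 1 := ⟨p - 1, by omega⟩
      obtain ⟨t, ht⟩ : ∃ t, r = t + 1 := ⟨r - 1, by omega⟩
      rw [ht]
      simp only [Nat.add_sub_cancel]
      have : (q + 1) * (t + 1) = (t + 1) * q + t + 1 := by ring
      omega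
    rw [h1, coeff_mul_add_eq_of_natDegree_le]
    · rw [mul_comm r (p - 1), coeff_pow_of_natDegree_le (le_of_eq hr.symm), coeff_derivative]
      have h2 : r - 1 + 1 = r := by omega
      rw [h2]
      have h3 : ((r - 1 : ℕ) : κ) + 1 = (r : κ) := by
        rw [← Nat.cast_succ]; congr 1
      rw [h3]
      have h4 : P.coeff r = P.leadingCoeff := by rw [hr]; rfl
      rw [h4]
      have h5 : P.leadingCoeff ^ p = P.leadingCoeff ^ (p - 1) * P.leadingCoeff := by
        rw [← pow_succ]; congr 1; omega
      rw [h5]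
      ring
    · exact natDegree_pow_le.trans (by rw [mul_comm, hr])
    · exact natDegree_derivative_le P
  have hL0 : P.leadingCoeff ^ p * (r : κ) ≠ 0 := by
    apply mul_ne_zero (pow_ne_zero _ (leadingCoeff_ne_zero.mpr hPne))
    intro h
    rw [CharP.cast_eq_zero_iff κ p] at h
    exact absurd (Nat.le_of_dvd (by omega) h) (by omega)
  apply hL0
  rw [← hL, ← Polynomial.coeff_coe, Polynomial.coe_mul, ← hv, Polynomial.coe_pow]
  have h6 : (P : PowerSeries κ) ^ (p - 1) * ((P : PowerSeries κ) * v) =
      ((P ^ p : κ[X]) : PowerSeries κ) * v := by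
    rw [Polynomial.coe_pow]
    have : (P : PowerSeries κ) ^ p = (P : PowerSeries κ) ^ (p - 1) * (P : PowerSeries κ) := by
      rw [← pow_succ]; congr 1; omega
    rw [this]; ring
  rw [h6, PowerSeries.coeff_mul]
  apply Finset.sum_eq_zero
  rintro ⟨a, b⟩ hab
  rw [Finset.HasAntidiagonal.mem_antidiagonal] at hab
  simp only at hab ⊢
  have : ExpChar κ p := ExpChar.prime hp.out
  rw [Polynomial.coeff_coe, ← map_frobenius_expand p P, coeff_map,
    coeff_expand (by omega : 0 < p)]
  split_ifs with hd
  · obtain ⟨a', rfl⟩ := hd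
    have h7 : a' < r := by
      by_contra hh
      push Not at hh
      have : p * r ≤ p * a' := Nat.mul_le_mul_left p hh
      have : 1 ≤ p * r := Nat.mul_pos (by omega) hr1
      omega
    have h8 : b = p * (r - a') - 1 := by
      have : p * (r - a') = p * r - p * a' := Nat.mul_sub _ _ _
      omega
    rw [h8, hc _ (by omega), mul_zero]
  · simp

end Ser

end Pool.Agent.H22.BinForm
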