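import Pool.Agent.H22.BinFormCore

/-!
# Reduction to characteristic `p` after scaling, and dehomogenisation
-/

namespace Pool.Agent.H22.BinForm

open Polynomial

theorem exists_valuationSubring (K : Type*) [Field K] [CharZero K] (p : ℕ) (hp : p.Prime) :
    ∃ V : ValuationSubring K, (p : K) ∈ V.nonunits := by
  let A : Subring K := (Int.castRingHom K).range
  have hpA : (p : K) ∈ A := ⟨(p : ℤ), by simp⟩
  let I : Ideal A := Ideal.span {⟨(p : K), hpA⟩}
  have hI : I ≠ ⊤ := by
    intro h
    rw [Ideal.eq_top_iff_one, Ideal.mem_span_singleton] at h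
    obtain ⟨a, ha⟩ := h
    obtain ⟨z, hz⟩ := a.2
    have h1 : (1 : K) = (p : K) * (a : K) := by
      have := congrArg (Subtype.val) ha
      simpa using this
    rw [← hz] at h1
    have h2 : (1 : ℤ) = (p : ℤ) * z := by
      have h3 : ((1 : ℤ) : K) = (((p : ℤ) * z : ℤ) : K) := by
        push_cast
        simpa using h1
      exact_mod_cast h3
    have h4 : (p : ℤ) ∣ 1 := ⟨z, h2⟩
    have h5 : p ∣ 1 := by exact_mod_cast h4
    exact hp.one_lt.ne' (Nat.dvd_one.mp h5)
  obtain ⟨V, _, hV⟩ := Ideal.image_subset_nonunits_valuationSubring I hI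
  refine ⟨V, hV ⟨⟨(p : K), hpA⟩, Ideal.subset_span rfl, rfl⟩⟩

/-- Scaling the variable so that all coefficients become integral and one of them is `1`. -/
theorem exists_scaling {K : Type*} [Field K] [IsAlgClosed K] (V : ValuationSubring K)
    (k e : ℕ) (F : Fin k → K[X]) (hdeg : ∀ i, (F i).natDegree ≤ e)
    (h0 : ∀ i, (F i).coeff 0 = 1) (hne : ∃ i, F i ≠ 1) :
    ∃ l : K, (∀ i j, (F i).coeff j * l ^ j ∈ V) ∧
      ∃ i j, 1 ≤ j ∧ (F i).coeff j * l ^ j = 1 := by
  classical
  set v := V.valuation with hv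
  set N := e.factorial with hN
  have hNpos : 0 < N := e.factorial_pos
  set T : Finset (Fin k × ℕ) := Finset.univ ×ˢ Finset.Icc 1 e with hT
  obtain ⟨i1, hi1⟩ := hne
  have hex : ∃ j, 1 ≤ j ∧ (F i1).coeff j ≠ 0 := by
    by_contra hcon
    push Not at hcon
    apply hi1
    ext j
    rcases Nat.eq_zero_or_pos j with rfl | hj
    · rw [h0 i1]; simp
    · rw [hcon j hj, coeff_one, if_neg (by omega)]
  obtain ⟨j1, hj1, hc1⟩ := hex
  have hj1e : j1 ≤ e := by
    by_contra hh
    exact hc1 (coeff_eq_zero_of_natDegree_lt (by have := hdeg i1; omega))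
  have hmem1 : (i1, j1) ∈ T := by simp [hT, hj1, hj1e]
  obtain ⟨⟨i0, j0⟩, hmem0, hmax⟩ := Finset.exists_max_image T
    (fun q => v ((F q.1).coeff q.2) ^ (N / q.2)) ⟨_, hmem1⟩
  have hj0 : 1 ≤ j0 ∧ j0 ≤ e := by simpa [hT] using hmem0
  have hdiv : ∀ j, 1 ≤ j → j ≤ e → j * (N / j) = N := by
    intro j h1 h2
    exact Nat.mul_div_cancel' (Nat.dvd_factorial (by omega) h2)
  have hdivpos : ∀ j, 1 ≤ j → j ≤ e → N / j ≠ 0 := by
    intro j h1 h2 h3
    have := hdiv j h1 h2
    rw [h3] at this
    omega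
  set c0 := (F i0).coeff j0 with hc0
  have hc0ne : c0 ≠ 0 := by
    intro h
    have h1 := hmax _ hmem1
    simp only at h1
    rw [h, map_zero, zero_pow (hdivpos j0 hj0.1 hj0.2), le_zero_iff] at h1
    exact hc1 ((map_eq_zero v).mp (pow_eq_zero_iff (hdivpos j1 hj1 hj1e) |>.mp h1))
  obtain ⟨l, hl⟩ := IsAlgClosed.exists_pow_nat_eq (c0⁻¹) (by omega : 0 < j0)
  refine ⟨l, ?_, i0, j0, hj0.1, ?_⟩
  · intro i j
    rcases Nat.eq_zero_or_pos j with rfl | hj
    · rw [h0 i]; simp [V.one_mem]
    · by_cases hje : j ≤ e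
      · rw [← V.valuation_le_one_iff, ← hv]
        have h1 := hmax (i, j) (by simp [hT]; omega)
        simp only at h1
        have h2 : (v ((F i).coeff j * l ^ j)) ^ (N / j) ≤ 1 := by
          rw [map_mul, map_pow, mul_pow, ← pow_mul, hdiv j hj hje]
          have h3 : v l ^ N = (v c0 ^ (N / j0))⁻¹ := by
            rw [← hdiv j0 hj0.1 hj0.2, pow_mul, ← map_pow, hl, map_inv₀, inv_pow,
              hdiv j0 hj0.1 hj0.2]
          rw [h3]
          have h4 : v c0 ^ (N / j0) ≠ 0 := pow_ne_zero _ ((map_ne_zero v).mpr hc0ne)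
          exact mul_inv_le_one_of_le₀ h1 zero_le
        exact (pow_le_one_iff (hdivpos j hj hje)).mp h2
      · rw [coeff_eq_zero_of_natDegree_lt (by have := hdeg i; omega), zero_mul]
        exact V.zero_mem
  · rw [← hc0, hl, mul_inv_cancel₀ hc0ne]

/-- The hypothesis on the exponent: a prime `p` divides an integer close to `d`. -/
def NearPrime (k e d p : ℕ) : Prop :=
  (∃ s, 1 ≤ s ∧ p ∣ d + s ∧ k * e * s < p) ∨
  (∃ s, s < d ∧ p ∣ d - s ∧ k * e * ((e - 1) * s + 1) < p)

theorem univariate {K : Type*} [Field K] [IsAlgClosed K] [CharZero K] (k e d p : ℕ)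
    (hp : p.Prime) (hnear : NearPrime k e d p)
    (F : Fin k → K[X]) (hdeg : ∀ i, (F i).natDegree ≤ e) (h0 : ∀ i, (F i).coeff 0 = 1)
    (hsum : ∑ i, F i ^ d = (k : K[X])) : ∀ i, F i = 1 := by
  haveI : Fact p.Prime := ⟨hp⟩
  by_contra hcon
  push Not at hcon
  have hkpos : 0 < k := by
    obtain ⟨i, _⟩ := hcon
    exact i.pos
  obtain ⟨V, hpV⟩ := exists_valuationSubring K p hp
  obtain ⟨l, hint, i1, j1, hj1, hone⟩ := exists_scaling V k e F hdeg h0 hcon
  have hlift : ∀ i, ∃ q : V[X], q.map (algebraMap V K) = (F i).comp (C l * X) := by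
    intro i
    have h1 : (F i).comp (C l * X) ∈ Polynomial.lifts (algebraMap V K) := by
      rw [Polynomial.lifts_iff_coeff_lifts]
      intro j
      rw [comp_C_mul_X_coeff]
      exact ⟨⟨_, hint i j⟩, rfl⟩
    exact (Polynomial.mem_lifts _).mp h1
  choose G hG using hlift
  have hinj : Function.Injective (algebraMap V K) := Subtype.val_injective
  have hinj' : Function.Injective (Polynomial.map (algebraMap V K)) := Polynomial.map_injective _ hinj
  haveI : CharZero V := RingHom.charZero (algebraMap V K)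
  have hGcoeff : ∀ i j, algebraMap V K ((G i).coeff j) = (F i).coeff j * l ^ j := by
    intro i j
    rw [← coeff_map, hG, comp_C_mul_X_coeff]
  have hGdeg : ∀ i, (G i).natDegree ≤ e := by
    intro i
    rw [← natDegree_map_eq_of_injective hinj, hG]
    refine natDegree_comp_le.trans ?_
    calc (F i).natDegree * (C l * X).natDegree ≤ e * 1 := by
          apply Nat.mul_le_mul (hdeg i)
          exact (natDegree_C_mul_le _ _).trans natDegree_X_le
      _ = e := by ring
  have hG0 : ∀ i, (G i).coeff 0 = 1 := by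
    intro i
    apply hinj
    rw [hGcoeff, h0, map_one]; simp
  have hGsum : ∑ i, G i ^ d = (k : V[X]) := by
    apply hinj'
    rw [Polynomial.map_sum, Polynomial.map_natCast]
    have h1 : ∑ i, ((F i).comp (C l * X)) ^ d = (k : K[X]) := by
      have h2 := congrArg (fun q => q.comp (C l * X)) hsum
      simp only [natCast_comp] at h2
      rw [← h2]
      rw [Polynomial.sum_comp]
      refine Finset.sum_congr rfl (fun i _ => ?_)
      rw [Polynomial.pow_comp]
    rw [← h1]
    refine Finset.sum_congr rfl (fun i _ => ?_)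
    rw [Polynomial.map_pow, hG]
  set κ := IsLocalRing.ResidueField V with hκ
  set π : V →+* κ := IsLocalRing.residue V with hπ
  have hpV' : ((p : ℕ) : V) ∈ IsLocalRing.maximalIdeal V := by
    rw [IsLocalRing.mem_maximalIdeal]
    have h1 : ((((p : ℕ) : V) : K)) ∈ V.nonunits := by simpa using hpV
    exact (ValuationSubring.coe_mem_nonunits_iff).mp h1
  have hpκ : ((p : ℕ) : κ) = 0 := by
    rw [← map_natCast π, hπ, IsLocalRing.residue_eq_zero_iff]
    exact hpV'
  haveI : CharP κ p := by
    obtain ⟨q, hq⟩ := CharP.exists κ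
    have h1 : q ∣ p := (CharP.cast_eq_zero_iff κ q p).mp hpκ
    rcases (Nat.dvd_prime hp).mp h1 with h2 | h2
    · exfalso
      rw [h2] at hq
      have h3 := (CharP.cast_eq_zero_iff κ 1 1).mpr (dvd_refl 1)
      rw [Nat.cast_one] at h3
      exact one_ne_zero h3
    · rw [← h2]; exact hq
  have hall : ∀ i, (G i).map π = 1 := by
    rcases hnear with ⟨s, hs1, hdvd, hlt⟩ | ⟨s, hsd, hdvd, hlt⟩
    · apply caseA p k e d s hs1 hdvd hlt (fun i => (G i).map π)
      · exact fun i => natDegree_map_le.trans (hGdeg i)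
      · intro i; rw [coeff_map, hG0, map_one]
      · have h1 := congrArg (Polynomial.map π) hGsum
        rw [Polynomial.map_sum, Polynomial.map_natCast] at h1
        rw [← h1]
        refine Finset.sum_congr rfl (fun i _ => ?_)
        rw [Polynomial.map_pow]
    · rcases Nat.eq_zero_or_pos e with he | he
      · intro i
        have h1 : (G i).natDegree = 0 := by have := hGdeg i; omega
        rw [eq_C_of_natDegree_eq_zero h1, hG0]; simp
      obtain ⟨e', rfl⟩ : ∃ e', e = e' + 1 := ⟨e - 1, by omega⟩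
      simp only [Nat.add_sub_cancel] at hlt
      rcases Nat.eq_zero_or_pos e' with he' | he'
      · subst he'
        apply caseB π p k 0 d (s % p) (lt_of_le_of_lt (Nat.mod_le s p) hsd) ?_ ?_ ?_ G hGdeg hG0 hGsum
        · have h1 : d - s % p = (d - s) + p * (s / p) := by
            have := Nat.mod_add_div s p
            omega
          rw [h1]
          exact Dvd.dvd.add hdvd (dvd_mul_right _ _)
        · simpa using Nat.mod_lt s hp.pos
        · simpa using hlt
      · apply caseB π p k e' d s hsd hdvd ?_ hlt G hGdeg hG0 hGsum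
        refine lt_of_le_of_lt ?_ hlt
        calc (e' + 1) * s ≤ (e' + 1) * (e' * s + 1) := by
              apply Nat.mul_le_mul_left
              nlinarith
          _ ≤ k * ((e' + 1) * (e' * s + 1)) := Nat.le_mul_of_pos_left _ hkpos
          _ = k * (e' + 1) * (e' * s + 1) := by ring
  have h1 := hall i1
  have h2 : (G i1).coeff j1 = 1 := by
    apply hinj
    rw [hGcoeff, hone, map_one]
  have h3 := congrArg (fun q => q.coeff j1) h1
  simp only [coeff_map, h2, map_one, coeff_one] at h3
  rw [if_neg (by omega)] at h3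
  exact one_ne_zero h3

section Dehom

/-- Setting the first variable to `1`. -/
noncomputable def dehom : MvPolynomial (Fin 2) ℂ →ₐ[ℂ] ℂ[X] :=
  MvPolynomial.aeval ![1, X]

theorem dehom_eq (f : MvPolynomial (Fin 2) ℂ) :
    dehom f = ∑ m ∈ f.support, C (f.coeff m) * X ^ (m 1) := by
  rw [dehom, MvPolynomial.aeval_def, MvPolynomial.eval₂_eq']
  refine Finset.sum_congr rfl (fun m _ => ?_)
  rw [Fin.prod_univ_two]
  simp

theorem degree_eq_two (m : Fin 2 →₀ ℕ) : m.degree = m 0 + m 1 := by
  rw [Finsupp.degree_eq_sum, Fin.sum_univ_two]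

theorem degree_of_mem {f : MvPolynomial (Fin 2) ℂ} {e : ℕ} (hf : f.IsHomogeneous e)
    {m : Fin 2 →₀ ℕ} (hm : f.coeff m ≠ 0) : m.degree = e := by
  by_contra h
  exact hm (hf.coeff_eq_zero h)

theorem natDegree_dehom_le {f : MvPolynomial (Fin 2) ℂ} {e : ℕ} (hf : f.IsHomogeneous e) :
    (dehom f).natDegree ≤ e := by
  rw [dehom_eq]
  apply natDegree_sum_le_of_forall_le
  intro m hm
  have h1 : m.degree = e := degree_of_mem hf (MvPolynomial.mem_support_iff.mp hm)
  rw [degree_eq_two] at h1
  exact (natDegree_C_mul_X_pow_le _ _).trans (by omega)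

theorem coeff_dehom {f : MvPolynomial (Fin 2) ℂ} {e : ℕ} (hf : f.IsHomogeneous e)
    (m : Fin 2 →₀ ℕ) (hm : m.degree = e) : (dehom f).coeff (m 1) = f.coeff m := by
  rw [dehom_eq, finsetSum_coeff]
  by_cases hmem : m ∈ f.support
  · rw [Finset.sum_eq_single_of_mem m hmem]
    · simp
    · intro m' hm' hne
      rw [coeff_C_mul_X_pow, if_neg]
      intro h
      apply hne
      have h1 : m'.degree = e := degree_of_mem hf (MvPolynomial.mem_support_iff.mp hm')
      rw [degree_eq_two] at h1 hm
      ext i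
      fin_cases i
      · simp only [Fin.zero_eta, Fin.isValue]; omega
      · simp only [Fin.mk_one, Fin.isValue]; exact h.symm
  · rw [MvPolynomial.notMem_support_iff.mp hmem]
    apply Finset.sum_eq_zero
    intro m' hm'
    rw [coeff_C_mul_X_pow, if_neg]
    intro h
    apply hmem
    have h1 : m'.degree = e := degree_of_mem hf (MvPolynomial.mem_support_iff.mp hm')
    rw [degree_eq_two] at h1 hm
    have : m = m' := by
      ext i
      fin_cases i
      · simp only [Fin.zero_eta, Fin.isValue]; omega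
      · simp only [Fin.mk_one, Fin.isValue]; exact h
    rw [this]; exact hm'

theorem eq_X_pow_of_dehom {f : MvPolynomial (Fin 2) ℂ} {e : ℕ} (hf : f.IsHomogeneous e)
    (h : dehom f = 1) : f = MvPolynomial.X 0 ^ e := by
  ext m
  rw [MvPolynomial.coeff_X_pow]
  by_cases hm : m.degree = e
  · rw [← coeff_dehom hf m hm, h, coeff_one]
    rw [degree_eq_two] at hm
    by_cases h1 : m 1 = 0
    · rw [if_pos h1, if_pos]
      ext i
      fin_cases i
      · simp; omega
      · simp [h1]
    · rw [if_neg h1, if_neg]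
      intro h2
      apply h1
      rw [← h2]; simp
  · rw [if_neg]
    · by_contra hne
      exact hm (degree_of_mem hf hne)
    · intro h2
      apply hm
      rw [← h2]; simp

end Dehom

end Pool.Agent.H22.BinForm
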